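import Pool.Agent.W425.ND.Stm

set_option autoImplicit false

/-! Project ND: generation over power series (TaskNAK). -/

namespace Pool.Agent.W977.ND

open MvPolynomial Pool.Agent.W425.ND

section
variable {r N : ℕ} {R : Type} [CommRing R] {v : Fin r → Fin N → ℕ}

theorem hul_add {m n : ℕ} {c d : Fin N →₀ ℕ} (hc : Hul v m c) (hd : Hul v n d) :
    Hul v (m + n) (c + d) := by
  obtain ⟨l, h1, h2, h3⟩ := hc
  obtain ⟨l', h1', h2', h3'⟩ := hd
  refine ⟨fun j => l j + l' j, fun j => add_nonneg (h1 j) (h1' j), ?_, fun i => ?_⟩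
  · rw [Finset.sum_add_distrib, h2, h2']
    push_cast
    ring
  · simp only [add_mul]
    rw [Finset.sum_add_distrib, h3, h3']
    simp

theorem hul_v (j : Fin r) : Hul v 1 (Finsupp.equivFunOnFinite.symm (v j)) := by
  classical
  refine ⟨fun j' => if j' = j then 1 else 0, fun j' => by
    show (0 : ℝ) ≤ if j' = j then 1 else 0
    split_ifs <;> norm_num, ?_, fun i => ?_⟩
  · simp
  · simp

theorem supH_add {m : ℕ} {p q : MvPolynomial (Fin N) R} (hp : SupH v m p) (hq : SupH v m q) :
    SupH v m (p + q) := by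
  intro c hc
  by_cases h : coeff c p = 0
  · apply hq
    intro h'
    apply hc
    rw [coeff_add, h, h', add_zero]
  · exact hp c h

theorem supH_zero (m : ℕ) : SupH v m (0 : MvPolynomial (Fin N) R) := by
  intro c hc
  exact absurd (coeff_zero c) hc

theorem supH_smul {m : ℕ} {p : MvPolynomial (Fin N) R} (t : R) (hp : SupH v m p) :
    SupH v m (t • p) := by
  intro c hc
  apply hp
  intro h
  apply hc
  rw [coeff_smul, h, smul_zero]

theorem supH_sum {ι : Type} {m : ℕ} (S : Finset ι) (p : ι → MvPolynomial (Fin N) R)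
    (hp : ∀ i ∈ S, SupH v m (p i)) : SupH v m (∑ i ∈ S, p i) := by
  classical
  induction S using Finset.induction_on with
  | empty =>
    rw [Finset.sum_empty]
    exact supH_zero m
  | insert a S ha ih =>
    rw [Finset.sum_insert ha]
    exact supH_add (hp a (Finset.mem_insert_self a S))
      (ih fun i hi => hp i (Finset.mem_insert_of_mem hi))

theorem supH_mul {m n : ℕ} {p q : MvPolynomial (Fin N) R} (hp : SupH v m p) (hq : SupH v n q) :
    SupH v (m + n) (p * q) := by
  classical
  intro c hc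
  rw [coeff_mul] at hc
  obtain ⟨x, hx, hne⟩ := Finset.exists_ne_zero_of_sum_ne_zero hc
  rw [Finset.HasAntidiagonal.mem_antidiagonal] at hx
  rw [← hx]
  exact hul_add (hp _ (left_ne_zero_of_mul hne)) (hq _ (right_ne_zero_of_mul hne))

theorem spa_eq (a : Fin r → R) :
    spa v a = ∑ j, monomial (Finsupp.equivFunOnFinite.symm (v j)) (a j) := by
  unfold spa
  refine Finset.sum_congr rfl fun j _ => ?_
  rw [monomial_eq, Finsupp.prod_fintype]
  · simp
  · intro i
    simp

theorem supH_monomial {m : ℕ} {c : Fin N →₀ ℕ} (hc : Hul v m c) (t : R) :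
    SupH v m (monomial c t) := by
  classical
  intro d hd
  rw [coeff_monomial] at hd
  split_ifs at hd with h
  · rwa [← h]
  · exact absurd rfl hd

theorem supH_spa (a : Fin r → R) : SupH v 1 (spa v a) := by
  rw [spa_eq]
  exact supH_sum _ _ fun j _ => supH_monomial (hul_v j) _

theorem supH_dspa (a : Fin r → R) (i : Fin N) : SupH v 1 (X i * pderiv i (spa v a)) := by
  rw [spa_eq, map_sum, Finset.mul_sum]
  refine supH_sum _ _ fun j _ => ?_
  rw [X_mul_pderiv_monomial]
  rw [← Nat.cast_smul_eq_nsmul R]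
  exact supH_smul _ (supH_monomial (hul_v j) _)

/-- the generated submodule -/
def GG (v : Fin r → Fin N → ℕ) (f : MvPolynomial (Fin N) R) (m : ℕ) :
    Submodule R (MvPolynomial (Fin N) R) where
  carrier := {g | ∃ (p0 : MvPolynomial (Fin N) R) (p : Fin N → MvPolynomial (Fin N) R),
      SupH v m p0 ∧ (∀ i, SupH v m (p i)) ∧ g = p0 * f + ∑ i, p i * (X i * pderiv i f)}
  zero_mem' := ⟨0, fun _ => 0, supH_zero m, fun _ => supH_zero m, by simp⟩
  add_mem' := by
    rintro g g' ⟨p0, p, h0, h, rfl⟩ ⟨q0, q, h0', h', rfl⟩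
    refine ⟨p0 + q0, fun i => p i + q i, supH_add h0 h0', fun i => supH_add (h i) (h' i), ?_⟩
    simp only [add_mul]
    rw [Finset.sum_add_distrib]
    ring
  smul_mem' := by
    rintro t g ⟨p0, p, h0, h, rfl⟩
    refine ⟨t • p0, fun i => t • p i, supH_smul t h0, fun i => supH_smul t (h i), ?_⟩
    simp only [smul_mul_assoc]
    rw [← Finset.smul_sum, ← smul_add]

theorem hul_finite (v : Fin r → Fin N → ℕ) (m : ℕ) : {c : Fin N →₀ ℕ | Hul v m c}.Finite := by
  apply (Set.finite_Icc (0 : Fin N →₀ ℕ)
    (Finsupp.equivFunOnFinite.symm fun i => m * ∑ j, v j i)).subset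
  rintro c ⟨l, h1, h2, h3⟩
  refine ⟨zero_le, fun i => ?_⟩
  have h4 : (c i : ℝ) ≤ ((m * ∑ j, v j i : ℕ) : ℝ) := by
    rw [← h3 i]
    push_cast
    rw [← h2, Finset.sum_mul]
    refine Finset.sum_le_sum fun j _ => ?_
    apply mul_le_mul_of_nonneg_left _ (h1 j)
    exact Finset.single_le_sum (f := fun j => (v j i : ℝ)) (fun _ _ => Nat.cast_nonneg _)
      (Finset.mem_univ j)
  simpa using (by exact_mod_cast h4 : c i ≤ m * ∑ j, v j i)

end

theorem nak : TaskNAK := by
  classical
  intro r N v a K hgen a' ha' m hm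
  set f := spa v a with hf
  set f' := spa v a' with hf'
  -- reduction of `f'`
  have hmapf : map (PowerSeries.constantCoeff (R := ℂ)) f' = f := by
    rw [hf, hf', spa_eq, spa_eq, map_sum]
    refine Finset.sum_congr rfl fun j _ => ?_
    rw [map_monomial, ha']
  have hmapC : ∀ p : MvPolynomial (Fin N) ℂ,
      map (PowerSeries.constantCoeff (R := ℂ)) (map (PowerSeries.C (R := ℂ)) p) = p := by
    intro p
    rw [map_map]
    have : (PowerSeries.constantCoeff (R := ℂ)).comp (PowerSeries.C (R := ℂ)) = RingHom.id ℂ := by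
      ext x
      simp
    rw [this, map_id]
  have hsupC : ∀ (p : MvPolynomial (Fin N) ℂ), SupH v m p →
      SupH v m (map (PowerSeries.C (R := ℂ)) p) := by
    intro p hp c hc
    apply hp
    intro h
    apply hc
    rw [coeff_map, h, map_zero]
  set F : Submodule (PowerSeries ℂ) (MvPolynomial (Fin N) (PowerSeries ℂ)) :=
    Submodule.span (PowerSeries ℂ) ((fun c => monomial c (1 : PowerSeries ℂ)) ''
      {c : Fin N →₀ ℕ | Hul v (m + 1) c}) with hF
  have hFG : F.FG := Submodule.fg_span ((hul_finite v (m + 1)).image _)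
  set I : Ideal (PowerSeries ℂ) := Ideal.span {PowerSeries.X} with hI
  have hIJ : I ≤ Ideal.jacobson ⊥ := by
    rw [IsLocalRing.jacobson_eq_maximalIdeal ⊥ bot_ne_top, hI, Ideal.span_le]
    intro x hx
    rw [Set.mem_singleton_iff] at hx
    subst hx
    rw [SetLike.mem_coe, IsLocalRing.mem_maximalIdeal, mem_nonunits_iff, PowerSeries.isUnit_iff_constantCoeff]
    simp
  have hle : F ≤ GG v f' m ⊔ I • F := by
    rw [hF, Submodule.span_le]
    rintro _ ⟨c, hc, rfl⟩
    obtain ⟨q0, q, hq0, hq, heq⟩ := hgen m hm c hc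
    set g : MvPolynomial (Fin N) (PowerSeries ℂ) := map (PowerSeries.C (R := ℂ)) q0 * f' +
      ∑ i, map (PowerSeries.C (R := ℂ)) (q i) * (X i * pderiv i f') with hg
    have hgG : g ∈ GG v f' m := ⟨_, _, hsupC q0 hq0, fun i => hsupC (q i) (hq i), rfl⟩
    have hgS : SupH v (m + 1) g := supH_add (supH_mul (hsupC q0 hq0) (supH_spa a'))
      (supH_sum _ _ fun i _ => supH_mul (hsupC (q i) (hq i)) (supH_dspa a' i))
    set D : MvPolynomial (Fin N) (PowerSeries ℂ) := monomial c 1 - g with hD
    have hDS : SupH v (m + 1) D := by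
      have e : D = monomial c 1 + (-1 : PowerSeries ℂ) • g := by
        rw [hD, neg_smul, one_smul, sub_eq_add_neg]
      rw [e]
      exact supH_add (supH_monomial hc _) (supH_smul _ hgS)
    have hDc : ∀ d, PowerSeries.constantCoeff (coeff d D) = 0 := by
      intro d
      have h0 : map (PowerSeries.constantCoeff (R := ℂ)) D = 0 := by
        rw [hD, hg, map_sub, map_add, map_mul, map_sum, hmapf, hmapC, map_monomial, map_one, heq,
          sub_eq_zero]
        congr 1
        refine Finset.sum_congr rfl fun i _ => ?_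
        rw [map_mul, map_mul, hmapC, map_X, ← pderiv_map, hmapf]
      rw [← coeff_map, h0, coeff_zero]
    have hDF : D ∈ I • F := by
      rw [D.as_sum]
      refine Submodule.sum_mem _ fun d hd => ?_
      have h1 : coeff d D ≠ 0 := mem_support_iff.1 hd
      have h2 : monomial d (coeff d D) = coeff d D • monomial d (1 : PowerSeries ℂ) := by
        rw [smul_monomial, smul_eq_mul, mul_one]
      rw [h2]
      apply Submodule.smul_mem_smul
      · rw [hI, Ideal.mem_span_singleton]
        exact PowerSeries.X_dvd_iff.2 (hDc d)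
      · exact Submodule.subset_span ⟨d, hDS d h1, rfl⟩
    have e : monomial c (1 : PowerSeries ℂ) = g + D := by
      rw [hD]
      ring
    show monomial c (1 : PowerSeries ℂ) ∈ GG v f' m ⊔ I • F
    rw [e]
    exact Submodule.add_mem_sup hgG hDF
  have hfin : F ≤ GG v f' m := Submodule.le_of_le_smul_of_le_jacobson_bot hFG hIJ hle
  intro c hc
  exact hfin (Submodule.subset_span ⟨c, hc, rfl⟩)

end Pool.Agent.W977.ND
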